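import Mathlib

set_option autoImplicit false

namespace Pool.Agent.Results.MP_34afd1_lc.NotAutomatic

open List

/-- convolution of `k` words; `none` is the padding symbol -/
def conv {A : Type} {k : ℕ} (w : Fin k → List A) : List (Fin k → Option A) :=
  (range (Finset.univ.sup fun j => (w j).length)).map fun i j => (w j)[i]?

/-- a relation on words is automatic if its set of convolutions is regular -/
def Auto {A : Type} {k : ℕ} (R : Set (Fin k → List A)) : Prop := Language.IsRegular (conv '' R)

lemma track {A : Type} : ∀ (l : List A) (n : ℕ), l.length ≤ n → (range n).filterMap (l[·]?) = l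
  | [], _, _ => by simp
  | a :: l, n + 1, h => by
    rw [range_succ_eq_map, filterMap_cons, filterMap_map]
    exact congrArg _ (track l n (by simpa using h))

lemma conv_track {A : Type} {k : ℕ} (w : Fin k → List A) (j : Fin k) : (conv w).filterMap (· j) = w j := by
  rw [conv, filterMap_map]
  exact track _ _ (Finset.le_sup (f := fun j => (w j).length) (Finset.mem_univ j))

lemma bound {A : Type} (e : ℕ+ → List A) (he : e.Injective) (f : ℕ+ → ℕ+ → ℕ+)
    (h : Auto {w | ∃ x y, w = ![e x, e y, e (f x y)]}) :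
    ∃ C, ∀ x y n, (e x).length ≤ n → (e y).length ≤ n → (e (f x y)).length ≤ n + C := by
  obtain ⟨σ, _, M, hM⟩ := h
  refine ⟨Fintype.card σ, fun x y n hx hy => not_lt.1 fun hn => ?_⟩
  have acc : conv ![e x, e y, e (f x y)] ∈ M.accepts := hM ▸ ⟨_, ⟨x, y, rfl⟩, rfl⟩
  have len := length_filterMap_le (· 2) (conv ![e x, e y, e (f x y)])
  rw [conv_track] at len
  obtain ⟨q, a, b, c, h1, -, h2, h3, h4, h5⟩ := M.evalFrom_split (x := (conv ![e x, e y, e (f x y)]).drop n)
    (s := M.eval ((conv ![e x, e y, e (f x y)]).take n)) (by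
      rw [length_drop]; exact Nat.le_sub_of_add_le' (hn.le.trans len)) rfl
  have e0 := (take_append_drop n (conv ![e x, e y, e (f x y)])).symm
  generalize take n (conv ![e x, e y, e (f x y)]) = u at *
  obtain ⟨_, ⟨x', y', rfl⟩, h6⟩ : u ++ (a ++ c) ∈ (conv '' {w | ∃ x y, w = ![e x, e y, e (f x y)]}) := by
    refine hM.le (show M.evalFrom M.start _ ∈ M.accept from ?_)
    rw [M.evalFrom_of_append, M.evalFrom_of_append, show M.evalFrom (M.evalFrom M.start u) a = q from h3, h5,
      DFA.eval, ← M.evalFrom_of_append, ← e0]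
    exact acc
  have k : ∀ j, (![e x, e y, e (f x y)] j).length ≤ n → ![e x', e y', e (f x' y')] j = ![e x, e y, e (f x y)] j :=
    fun j hj => by
      have : b.filterMap (· j) = [] := filterMap_eq_nil_iff.2 fun z hz => by
        have : z ∈ drop n (conv ![e x, e y, e (f x y)]) := h1 ▸ by simp [hz]
        rw [conv, ← map_drop, mem_map] at this
        obtain ⟨i, h7, rfl⟩ := this
        rw [range_eq_range', drop_range', mem_range'_1] at h7
        exact getElem?_eq_none (by omega)
      refine (conv_track _ j).symm.trans (Eq.trans ?_ (conv_track _ j))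
      rw [h6, e0, h1]
      simp [this]
  obtain rfl := he (k 0 hx)
  obtain rfl := he (k 1 hy)
  have := congrArg length (h6.symm.trans (e0.trans (congrArg _ h1)))
  exact h2 (by simpa using this)

theorem result : ¬ ∃ (A : Type) (_ : Fintype A) (e : ℕ+ → List A), e.Injective ∧
    Language.IsRegular (Set.range e) ∧ Auto {w | ∃ x y, w = ![e x, e y, e (x + y)]} ∧
    Auto {w | ∃ x y : ℕ+, w = ![e x, e y, e (x * 2 ^ (y : ℕ))]} ∧ Auto {w | ∃ x y, x ≤ y ∧ w = ![e x, e y]} := by
  rintro ⟨A, _, e, he, -, h1, h2, -⟩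
  obtain ⟨C, hC⟩ := bound e he _ h1
  obtain ⟨D, hD⟩ := bound e he (fun x y => x * 2 ^ (y : ℕ)) h2
  have inj : ∀ n, Function.Injective fun (x : {x // (e x).length ≤ n}) (i : Fin n) => (e x.1)[i.1]? :=
    fun n x y h => Subtype.ext (he (ext_getElem? fun i => (lt_or_ge i n).elim (fun hi => congrFun h ⟨i, hi⟩)
      fun hi => (getElem?_eq_none (x.2.trans hi)).trans (getElem?_eq_none (y.2.trans hi)).symm))
  have fin : ∀ n, Finite {x // (e x).length ≤ n} := fun n => Finite.of_injective _ (inj n)
  let m := (e 1).length + (e 2).length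
  have lo : ∀ t, 2 ^ 2 ^ t ≤ Nat.card {x // (e x).length ≤ m + t * (C + C + D)} := fun t => by
    induction t with
    | zero => exact (Nat.card_fin 2).ge.trans (Nat.card_le_card_of_injective
        ![⟨1, by omega⟩, ⟨2, by omega⟩] fun i j => by fin_cases i <;> fin_cases j <;> simp)
    | succ t ih =>
      rw [pow_succ, pow_mul, sq]
      refine (Nat.mul_le_mul ih ih).trans ((Nat.card_prod _ _).ge.trans (Nat.card_le_card_of_injective
        (fun p => ⟨(p.1.1 + p.1.1 + 1) * 2 ^ (p.2.1 : ℕ), ?_⟩) ?_))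
      · have := hD _ p.2.1 _ (hC _ 1 _ (hC _ _ _ p.1.2 p.1.2) (by omega)) (p.2.2.trans (by omega))
        rw [add_mul t, one_mul]; omega
      · rintro ⟨⟨a, _⟩, b, _⟩ ⟨⟨c, _⟩, d, _⟩ h
        have h : ((a : ℕ) + a + 1) * 2 ^ (b : ℕ) = (c + c + 1) * 2 ^ (d : ℕ) := by
          exact_mod_cast congrArg (fun x => (x.1 : ℕ)) h
        have k : ∀ a b c d : ℕ, (a + a + 1) * 2 ^ b = (c + c + 1) * 2 ^ d → b ≤ d := fun a b c d h =>
          (Nat.pow_dvd_pow_iff_le_right one_lt_two).1 ((Nat.Coprime.pow_left b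
            ((Nat.coprime_two_left).2 ⟨c, by omega⟩)).dvd_of_dvd_mul_left (h ▸ Dvd.intro_left _ rfl))
        obtain rfl : b = d := PNat.eq (le_antisymm (k _ _ _ _ h) (k _ _ _ _ h.symm))
        obtain rfl : a = c := PNat.eq (by have := Nat.eq_of_mul_eq_mul_right (by positivity) h; omega)
        rfl
  let t := (Fintype.card A + 1) * (m + (C + C + D)) + 1
  have := (lo (2 * t)).trans (Nat.card_le_card_of_injective _ (inj _))
  rw [Nat.card_fun, Nat.card_fin, Nat.card_eq_fintype_card, Fintype.card_option] at this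
  have := (Nat.pow_le_pow_iff_right one_lt_two).1 (this.trans ((Nat.pow_le_pow_left
    (Nat.lt_two_pow_self (n := Fintype.card A + 1)).le _).trans_eq (pow_mul _ _ _).symm))
  have h3 := Nat.two_mul_sq_add_one_le_two_pow_two_mul t
  have h4 : (Fintype.card A + 1) * (m + 2 * t * (C + C + D)) ≤ 2 * t * ((Fintype.card A + 1) * (m + (C + C + D))) := by
    rw [mul_left_comm]; exact Nat.mul_le_mul_left _ (by nlinarith [show 1 ≤ t by omega])
  have h5 := Nat.mul_le_mul_left (2 * t) (show (Fintype.card A + 1) * (m + (C + C + D)) ≤ t by omega)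
  nlinarith

end Pool.Agent.Results.MP_34afd1_lc.NotAutomatic
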